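import Pool.Agent.Helper96.TwoFactor.Main

namespace Pool.Agent.Results.MP_aee211_co.TwoFactorThreshold

open SimpleGraph Pool.Agent.Helper96.TwoFactor

/-- The least `k` such that every `k`-connected graph embeddable in the surface has a 2-factor,
for every closed surface: with Euler characteristic `χ` it is `⌊(5 + √(17 - 8 χ)) / 2⌋`, except
for the sphere, where it is `4`. -/
theorem result :
    (∀ h : ℕ, IsLeast
      {k : ℕ | ∀ (V : Type) [Finite V] (G : SimpleGraph V),
        KConnected G k → EmbedsOrientable G h → HasTwoFactor G}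
      (if h = 0 then 4 else ⌊(5 + √(17 - 8 * (2 - 2 * (h : ℝ)))) / 2⌋₊)) ∧
    (∀ j : ℕ, 1 ≤ j → IsLeast
      {k : ℕ | ∀ (V : Type) [Finite V] (G : SimpleGraph V),
        KConnected G k → EmbedsNonorientable G j → HasTwoFactor G}
      ⌊(5 + √(17 - 8 * (2 - (j : ℝ)))) / 2⌋₊) := by
  constructor
  · intro h
    by_cases h0 : h = 0
    · subst h0
      rw [if_pos rfl]
      constructor
      · intro V _ G hG hE
        by_contra hno
        have := upper_orientable (le_refl 4) hG hE hno
        norm_num at this
      · intro k hk
        by_contra hlt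
        push Not at hlt
        exact herschel_no_twoFactor (hk _ herschel (herschel_kConnected.mono (by omega))
          herschel_planar)
    · rw [if_neg h0]
      have e1 : (17 - 8 * (2 - 2 * (h : ℝ))) = 1 + 8 * ((2 * h : ℕ) : ℝ) := by
        push_cast; ring
      rw [e1]
      obtain ⟨t, ht, ht3, hlo, hhi⟩ := floor_spec (2 * h) (by omega)
      rw [ht]
      constructor
      · intro V _ G hG hE
        by_contra hno
        have h5 := upper_orientable (show 4 ≤ t + 1 by omega) hG hE hno
        obtain ⟨u, rfl⟩ : ∃ u, t = u + 1 := ⟨t - 1, by omega⟩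
        rw [Nat.add_sub_cancel] at hhi
        have h6 : (2 * (2 * (h : ℤ))) < (u + 1) * u := by exact_mod_cast hhi
        push_cast at h5
        nlinarith
      · intro k hk
        by_contra hlt
        push Not at hlt
        obtain ⟨V, hV, G, hG, hE, hno⟩ := lower_orientable (k := t) (g := h) ht3 (by omega)
        exact hno (hk V G (hG.mono (by omega)) hE)
  · intro j hj
    have e1 : (17 - 8 * (2 - (j : ℝ))) = 1 + 8 * (j : ℝ) := by ring
    rw [e1]
    obtain ⟨t, ht, ht3, hlo, hhi⟩ := floor_spec j hj
    rw [ht]
    constructor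
    · intro V _ G hG hE
      by_contra hno
      have h5 := upper_nonorientable (show 4 ≤ t + 1 by omega) hG hE hno
      obtain ⟨u, rfl⟩ : ∃ u, t = u + 1 := ⟨t - 1, by omega⟩
      rw [Nat.add_sub_cancel] at hhi
      have h6 : (2 * (j : ℤ)) < (u + 1) * u := by exact_mod_cast hhi
      push_cast at h5
      nlinarith
    · intro k hk
      by_contra hlt
      push Not at hlt
      obtain ⟨V, hV, G, hG, hE, hno⟩ := lower_nonorientable (k := t) (g := j) ht3 hlo
      exact hno (hk V G (hG.mono (by omega)) hE)

end Pool.Agent.Results.MP_aee211_co.TwoFactorThreshold
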